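import Pool.Agent.N179.GE.Fin

/-!
# The Tate conjecture for the products of an arbitrary variety with all but boundedly many members of
# a family of K3 surfaces (or surfaces with larger geometric genus)

Let `F₀` be a number field (or any finitely generated field) with the separable closure `k`, let `Γ`
be its Galois group, `W` the `ℓ`-adic cohomology of the varieties over `k` with coefficients in an
algebraic closure `K` of `ℚ_ℓ` (a field isomorphic to `ℂ`), and `χ` the inverse of the cyclotomic
character (so that the condition `g c = χ(g)^j c` for `c ∈ H^(2j)` says that `c` is an invariant of
`H^(2j)(j)`). The theorem is proved for an abstract Weil cohomology theory with an action of a group.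

A weight operator `D` for `Γ` is an operator on every finite-dimensional representation, compatible
with all multilinear maps which are equivariant for a subgroup of finite index. Over a field of
characteristic `0` the Sen operator of a place above `ℓ` is such an operator: on the cohomology of a
smooth projective variety it is diagonalizable, its eigenvalues are the Hodge-Tate weights, and the
multiplicities are the Hodge numbers (Sen, Faltings).

Let `X_i`, `i ∈ ι`, be any family of varieties over `F₀` of even dimension for which numerical and
homological equivalence coincide, whose transcendental cohomology `T_i` (the orthogonal complement of
all algebraic classes) is concentrated in the middle degree and irreducible under every open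
subgroup, and has the weights `h + 1`, `h`, `h - 1` with the multiplicities `p_i`, `q_i`, `p_i`. Either
`p_i = 1` (K3 type: K3 surfaces without real or complex multiplication, cubic fourfolds with
irreducible `T_i`, ...; the rank `r_i = 2 p_i + q_i` is not `4`), or
`p_i > 1`, `p_i` and `q_i` are coprime, and `2 p ^ 2 (p ^ 2 + 1) < (q - 2 p) (q + p)` (surfaces with
`p_g > 1` and with irreducible `T_i`). Suppose that the `T_i` are pairwise not isomorphic up to a
twist.

**Theorem.** Let `Z` be an **arbitrary** variety over `F₀`. There is a finite set `E` of indices, with
at most `b ^ 2 / 3` elements, where `b` is the total Betti number of `Z`, such that for all products
`Y = X_1^(n_1) × ... × X_m^(n_m) × Z` with different indices `i ∉ E` and with exponents `n_i < r_i` the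
Tate conjecture for `Y` (cycles of all codimensions, all finite extensions of `F₀`) is equivalent to
the Tate conjecture for `Z`. (If `n_i ≥ r_i` for some `i`, the Tate conjecture for `Z` over the
finite extensions of `F₀` implies the Tate conjecture for `Y` over a finite extension `F'` if the
discriminant characters of the `X_i` with `n_i ≥ r_i` are independent over a finite extension of
`F'` over which the algebraic classes are defined.)

So nothing at all is assumed on `Z`; for each `Z` for which the Tate conjecture is known it follows for
the products of `Z` with all powers (with exponents smaller than the rank) of all members of the
family with at most `b ^ 2 / 3` exceptions, and for all products of these.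

The exceptional set has the following properties.

* If the cohomology algebra of `Z` is generated by subspaces `U_a` stable under `Γ`, of dimension
  `d_a`, then the sum of `r_i (r_i - 1) / 2` over the exceptional `i` is at most the sum of the
  numbers `d_a ^ 2`; if `U_a` carries a symmetric or an alternating form, invariant up to a character,
  one may replace `d_a ^ 2` by `d_a (d_a - 1) / 2` or by `d_a (d_a + 1) / 2`. For example, if `Z` is a
  product of curves of genus `g_a`, or an abelian variety of dimension `g`, the bounds are
  the sum of the `g_a (2 g_a + 1)`, and `g (2 g + 1)`.
* An element of `Γ` which acts trivially on the cohomology of `Z` acts on `T_i` as a scalar for all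
  exceptional `i`. So `i` is not exceptional if, for instance, `Z` has good reduction at a place at
  which the inertia group does not act on `T_i` through `± 1`.
* If `u`, `w` are linearly independent eigenvectors of `g ∈ Γ` in `T_i`, `i` exceptional, with the
  eigenvalues `α`, `β`, then `α β` is `χ(g) ^ (dim X_i)` times the quotient of two eigenvalues of `g`
  on the cohomology of `Z`. So one Frobenius element can prove that `i` is not exceptional.

The idea: in any family of representations the commutator algebra of the Lie algebra of all
simultaneous derivations of the equivariant multilinear maps projects onto the orthogonal Lie algebra
of `T_i`, as it contains the conjugates of the weight operator (the theorem of the starting file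
`HodgeTateTowers`); these Lie algebras are simple and, as the `T_i` are not isomorphic up to twists,
independent of each other. The index `i` is exceptional if in some family which contains `T_i` and
the cohomology of `Z` every derivation which kills the cohomology of `Z` kills `T_i`. In the union of
these families the product of the orthogonal Lie algebras of the exceptional `T_i` is a quotient of a
Lie algebra which acts faithfully on the cohomology of `Z` (so the orthogonal Lie algebra of every
exceptional `T_i` is an equivariant quotient of a Lie algebra of operators on the cohomology of `Z`),
and this bounds their number. If `i` is
not exceptional then in every family some derivation kills `Z` and the other `X_j`, and is an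
arbitrary skew operator on `T_i`, so that the first fundamental theorem for the orthogonal group
determines the Tate classes.
-/

universe u

namespace Pool.Agent.Results.MP_021685_ag.FewExceptionalFactors

open Pool.Agent.H914 Pool.Agent.TH125.Gal Pool.Agent.Y95.ZT.S Pool.Agent.N179.GE.S

/-- **The Tate conjecture for the products of an arbitrary variety with all but boundedly many members
of a family of varieties with the weights `(p, q, p)`.** -/
theorem result {k : Type u} [Field k] {𝒱 : VarClass k} {ops : CycleOps 𝒱}
    {W : WeilCohomology.{u, 0} ops} (hK : Nonempty (W.K ≃+* ℂ)) {Γ : Type} [Group Γ]
    {D : WeightData W.K Γ} {ι : Type} {p q : ι → ℕ} {X : ι → GVar W Γ} (hX : Family D p q X)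
    (Z : GVar W Γ) :
    ∃ E : Set ι, Exceptional D p q X Z E ∧ TateOutside D p q X Z E :=
  final hK hX Z

end Pool.Agent.Results.MP_021685_ag.FewExceptionalFactors
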