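import Pool.Agent.N179.GR.Fin

/-!
# Independent families of varieties, an arbitrary variety, and the Tate conjecture

Let `F₀` be a number field (or any finitely generated field) with the separable closure `k`, let `Γ`
be its Galois group, `W` the `ℓ`-adic cohomology of the varieties over `k` with coefficients in an
algebraic closure `K` of `ℚ_ℓ` (a field isomorphic to `ℂ`), and `χ` the inverse of the cyclotomic
character (so that the condition `g c = χ(g)^j c` for `c ∈ H^(2j)` says that `c` is an invariant of
`H^(2j)(j)`). The theorem is proved for an abstract Weil cohomology theory with an action of a group.

A class (or a vector of a representation) is *semi-invariant* if an open subgroup multiplies it by
a character. Let `V_i`, `i ∈ ι`, be any family of representations of `Γ` such that the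
representations `End V_i` are semisimple, and which are pairwise independent: for `i ≠ j` every
equivariant linear map `End V_i → End V_j` has its values in the span of the semi-invariant
vectors. For instance (by theorems of Faltings and Serre) the representations `H^1(E_i)` for any
family of elliptic curves over `F₀` which are pairwise not isogenous over `k`; the `H^1` of
pairwise not isogenous abelian varieties `A_i` with `End A_i = ℤ` and of odd dimension; the
transcendental lattices `T(X_i)` of K3 surfaces without real or complex multiplication, pairwise
not isomorphic up to a twist and of rank different from `4`; and one can mix these families. (So only
the squares of the varieties have to be compared.)

**Theorem.** Let `Z` be an **arbitrary** variety over `F₀`; nothing is assumed. There is a finite set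
`E = E(Z)` of indices, with at most `(b - b') / 2` elements, where `b` is the sum of the Betti numbers
of `Z` and `b' ≥ 1` is the dimension of the span of the semi-invariant classes, such that the
following is true for all `P_1`, ..., `P_m`, where `P_a` is a variety with semisimple cohomology which
is generated by `V_(i_a)` (for instance a power of the elliptic curve, of the abelian variety or of
the K3 surface above), with pairwise different indices `i_a ∉ E`, and for all varieties `Z'` generated
by the cohomology of `Z` (for instance `Z' = Z`, the powers of `Z`, and their products with
varieties with potentially abelian cohomology, like abelian varieties with complex multiplication
and Fermat varieties).

* The Künneth formula holds for semi-invariant classes: all semi-invariant classes on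
  `P_1 × ... × P_m × Z'` are linear combinations of products of semi-invariant classes on the
  `P_a` and on `Z'`.
* Suppose that the semi-invariant classes on the `P_a` are combinations of potential Tate classes
  (so are those of all the powers above, if the elliptic curves have no complex multiplication). Then
  the Tate conjecture for `P_1 × ... × P_m × Z'` (cycles of all codimensions, all finite extensions of
  `F₀`) is equivalent to the Tate conjecture for `Z'` and for the `P_a`.

So for each `Z` for which the Tate conjecture is known it follows for the products of `Z` with all
powers of all members of the family with at most `(b - b') / 2` exceptions, and for all products of
these. As `E(V_j) ⊆ {j}`, the exceptional members may be moved to the base: in every product of `Z`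
with powers of members of the family all members but at most `(b - b') / 2` can be split off.

The bound is better if the cohomology of `Z` is generated by smaller representations `U_a`, like
`H^1` for abelian varieties and products of curves: one may take the union of the sets `E(U_a)`,
and `E(U)` has at most `(dim U - dim U') / 2` elements, where `U'` is the span of the semi-invariant
vectors, if `U` carries a nondegenerate form which is invariant up to a character, and at most
`dim U - dim U'` elements in general. For a product of curves of genus `g_a` there are at most
`g_1 + ... + g_n` exceptional members, for an abelian variety of dimension `g` at most `g`; this is
the exact value for the product of `g` elliptic curves without complex multiplication.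

Moreover, for every `i ∈ E(U)` there is a stable perfect Lie algebra `s_i ⊆ End V_i` of dimension at
least `3`, without semi-invariant vectors, which is an equivariant quotient of a stable subspace
of `End U`; so `i` is not exceptional if there is no such piece. The sum of the dimensions of the
`s_i` is at most `dim U ^ 2`, and at most `d (d - 1) / 2` or `d (d + 1) / 2`, `d = dim U`, if `U` carries a
symmetric or an alternating form invariant up to a character.

The idea: consider the Lie algebra of the derivations of the category of all representations of all
open subgroups (compatible with the equivariant linear and bilinear maps). A vector is
semi-invariant if and only if all derivations multiply it by scalars; this is proved with the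
logarithmic derivative of the generic element of `Γ` in an ultrapower, and replaces the Zariski
closure of the image of `Γ`. Let `c(V) ⊆ End V` be the intersection of the derived series of the Lie
algebra which acts on `V`, a perfect Lie algebra. By Goursat's lemma and the lemma of Ribet the
Lie algebra of a product of independent representations contains the product of the `c(V_i)`. The
index `i` is exceptional with respect to `U` if the derivations which kill `U` do not induce all of
`c(V_i)`; the quotient is the piece `s_i`. To bound the number of the exceptional indices one chooses
elements of the `s_i` which are not ad-nilpotent (Engel) and multiplies them by numbers such that
the eigenvalues become linearly independent over `ℚ`; they are differences of eigenvalues of one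
operator on `U`. By Lie's theorem the part of the cohomology of `P_a` which is killed by `c(V_i)` is
spanned by semi-invariant classes.
-/

universe u

namespace Pool.Agent.Results.MP_021685_ag.IndependenceFromSquares

open Pool.Agent.H914 Pool.Agent.TH125.Gal Pool.Agent.N179.GR.S

/-- **Independent families of varieties, an arbitrary variety, and the Tate conjecture.** -/
theorem result {k : Type u} [Field k] {𝒱 : VarClass k} {ops : CycleOps 𝒱}
    {W : WeilCohomology.{u, 0} ops} (hK : Nonempty (W.K ≃+* ℂ)) {Γ : Type} [Group Γ]
    (χ : Γ →* W.Kˣ) {ι : Type} {V : ι → GRep W.K Γ} (hV : Family V) :
    ∃ E : GRep W.K Γ → Set ι, Splitting χ V E :=
  final hK χ hV

end Pool.Agent.Results.MP_021685_ag.IndependenceFromSquares
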