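import Pool.Agent.N90.ST.Main

/-!
# The Tate conjecture for all powers of a variety over a finite field: one explicit power suffices
-/

set_option autoImplicit false

open CategoryTheory AlgebraicGeometry

universe u v

namespace Pool.Agent.Results.MP_021685_ag.OnePowerEveryVariety

open Pool.Agent.H914 Pool.Agent.W534 VarClass Obj WeilCohomology Pool.Agent.Y133.Half
  Pool.Agent.N90.ST

/-- **One explicit power.** Let `X` be a variety over the algebraic closure of a finite field with
`q` elements, and let `V` be a generating part of the cohomology of `X` in degrees `≤ n`, for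
example `V = H(X)`, `n = 2 dim X`, or `V = H^1(X)`, `n = 1` if `X` is an abelian variety. Assume
that the eigenvalues of the Frobenius endomorphism on `V` are Weil numbers with slopes in
`(1 / D) ℤ`. Let `b = dim V`, let `m` be the number of pairs of a degree `i` and of the minimal
polynomial of an eigenvalue on `V i`, and let `N + 1` be at least `2 b ^ 2 (b (n D + 1)) ^ e`, where
`m b (log b + 5) ≤ e ^ 2` or `2 b ^ 2 (log b + 5) ≤ e ^ 3`.

1. Each system of classes which contains the generalised Tate classes (in all degrees, over all
finite fields) of the power `X ^ (N + 1)` contains those of all powers of `X`.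

2. If the generalised Tate classes of `X ^ (N + 1)` are linear combinations of classes of algebraic
cycles, then this holds for all varieties `Z` which are covered by powers of `X`.

3. The same for the formula for the orders of the poles of the zeta functions at the integers. -/
theorem result {k : Type u} [Field k] {𝒱 : VarClass k} {ops : CycleOps 𝒱}
    (W : WeilCohomology.{u, v} ops) [IsAlgClosed W.K] {p : ℕ} [Fact p.Prime]
    (Φ : FrobSystem W p) (X : 𝒱.Obj) :
    IsGenerating Φ (grading W X) (2 * X.dim) ∧
    ∀ (V : Part W X) (n D N : ℕ), IsGenerating Φ V n → 0 < D → WeilEigenvalues Φ V D →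
      IsLarge (V.rank n) (factors Φ V).ncard n D N →
      (∀ C : Family W, IsClassSystem C → TateIncluded Φ C (pw X N) →
        ∀ r, TateIncluded Φ C (pw X r)) ∧
      (SemisimpleTate Φ (pw X N) → ∀ Z, Covered W X Z → SemisimpleTate Φ Z) ∧
      ∀ σ : W.K →+* ℂ, StrongTate Φ σ (pw X N) → ∀ Z, Covered W X Z → StrongTate Φ σ Z := by
  refine ⟨isGenerating_grading Φ X, fun V n D N hV hD hX hN => ?_⟩
  obtain ⟨e, he, hN⟩ := hN
  exact ⟨fun _ hC h r s hs c _ hx => main hV hD hX le_rfl le_rfl he hN hC
      (fun s hs c _ hx => h s hs c _ hx) r s c hs hx,
    fun h _ hZ => main_tate hV hD hX le_rfl le_rfl he hN h hZ,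
    fun σ h _ hZ => main_pole hV hD hX le_rfl le_rfl he hN σ h hZ⟩

end Pool.Agent.Results.MP_021685_ag.OnePowerEveryVariety
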