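import Pool.Agent.N171.TG.So4

/-!
# The Tate conjecture at 100 percent of the primes, with a potentially solvable or small factor

Let `M i`, for `i` in a finite set, be motives over a number field `K`, of weight `w i` and rank `N i`,
with an ALTERNATING polarization `J i`, a rational matrix; for instance the middle cohomology of
varieties `X i` of odd dimension (curves, hypersurfaces, complete intersections). For all prime numbers
`ℓ` the `ℓ`-adic realizations are `V i ℓ = ℚ_ℓ ^ N i`, with the action `ρ i ℓ` of the absolute Galois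
group of `K` by similitudes of `J i` with the factor `κ ℓ ^ w i`, where `κ ℓ` is the inverse of the
cyclotomic character; outside of a finite set `S` of places the Frobenius elements have characteristic
polynomials `P i v` in `ℚ[X]` which do not depend on `ℓ` (`IsSystem`).

**The hypothesis** (`LargeModTwo`) concerns ONE finite group, the joint image of Galois MODULO TWO. The
forms are integral, the Galois group preserves the lattices `ℤ₂ ^ N i`, and `N i ≥ 6`. There are
`N i + 1` integral vectors `e i a` with odd products `J i (e i a, e i b)` for all `a ≠ b`. For each `i`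
each EVEN permutation of these vectors modulo two is the action of some element of the Galois group which
acts trivially on the other `M j` modulo two. This holds if the joint image modulo two contains the
product of the groups `Sp(N i, 𝔽₂)`, but also if it is the product of the alternating groups of degrees
`N i + 1`.

**The values.** Let `Z` be another smooth projective variety over `K`, or more generally any variety over
`K`, and `τ` its cohomology in some degree and at the prime `ℓ`, a continuous representation of rank `d`.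
It is supposed that (`IsAdmissible`)

* a derived subgroup (of any order) of an open subgroup of the Galois group acts trivially; for
  instance if `Z` is an abelian variety with complex multiplication, a Fermat hypersurface, a variety
  with algebraic cohomology, or an open or singular variety with such weight pieces: then an open
  subgroup acts through a group of upper triangular matrices; OR
* `d ^ 2 < (N i + 1).choose 2` for all `i`, i.e. the rank of `τ` is small (less than about
  seven tenths of the ranks `N i`); nothing else is supposed in this case.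

The cohomology of `Z × ∏ (X i) ^ (n i)` is the sum of the tensor words in the `M i` with values in such
representations `τ` (and of Tate twists of such words); so its Tate classes are multilinear maps on the
words with values in `τ` (or in the dual), which are equivariant for an open subgroup (`IsTate`).

**Theorem.** At `ℓ = 2`, at all prime numbers `ℓ` outside of a set of natural density zero, and at EVERY
prime number `ℓ` at which the `M i` are semisimple with scalar endomorphisms over all finite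
extensions (for abelian varieties this is every `ℓ`, by Faltings, since it is true at `ℓ = 2` by the
theorem; if `K = ℚ` and the `M i` are pure and integral, the semisimplicity is a consequence), for ALL
admissible `τ` and all tensor words (`TateAt`):

(a) if some `M i` occurs an odd number of times in the word, there is no Tate class except zero;

(b) if the word has the weight `2 j`, the Tate classes are exactly the combinations of `T₀ ⊗ x`, where
`T₀` is a RATIONAL multilinear form which is killed by the product of the symplectic Lie algebras, and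
`x` a Tate class of `τ`, i.e. a vector which an open subgroup multiplies by `κ ℓ ^ j`.

By the invariant theory of the symplectic groups the forms `T₀` are generated by the polarizations, so
they are algebraic for `X i` as above. Hence the Tate conjecture at `ℓ` for `Z × ∏ (X i) ^ (n i)` is
equivalent to the Tate conjecture at `ℓ` for `Z`.

For the prime `ℓ = 2` the same is known for arbitrary `Z` under a condition modulo two
(MP_2a05c8_ag.AnySmoothFactor); without `Z` the theorem is MP_938ce2_ag.FromImageModTwo. The new steps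
are: the Lie algebra along the derived subgroups of an open subgroup is still the full symplectic one,
since brackets of tangent vectors are tangent vectors of commutators; and by Goursat's method: if `d` is
small, some nonzero tangent vector of the `M i` extends by zero to `τ`, and these vectors form an
ideal.
-/

set_option autoImplicit false

namespace Pool.Agent.Results.MP_021685_ag.SolvableOrSmallFactor

open Matrix Polynomial Filter Topology NumberField IsDedekindDomain

/-- the absolute Galois group, with the profinite (Krull) topology -/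
abbrev AbsoluteGaloisGroup (K : Type) [Field K] : Type := Gal(AlgebraicClosure K/K)

/-- `σ` is a Frobenius element at the prime `v` of `K`: there is a maximal ideal `Q` above `v` of the
ring of all algebraic integers with `σ x ≡ x ^ N(v)` modulo `Q` for all `x` -/
def IsFrobenius {K : Type} [Field K] [NumberField K] (v : HeightOneSpectrum (𝓞 K))
    (σ : AbsoluteGaloisGroup K) : Prop :=
  ∃ Q : Ideal (𝓞 (AlgebraicClosure K)), Q.IsMaximal ∧
    Q.comap (algebraMap (𝓞 K) (𝓞 (AlgebraicClosure K))) = v.asIdeal ∧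
    ∀ x : 𝓞 (AlgebraicClosure K), σ • x - x ^ Ideal.absNorm v.asIdeal ∈ Q

/-- the rational matrix as an `ℓ`-adic matrix -/
noncomputable abbrev adic (ℓ : ℕ) [Fact ℓ.Prime] {n : ℕ} (J : Matrix (Fin n) (Fin n) ℚ) :
    Matrix (Fin n) (Fin n) ℚ_[ℓ] :=
  J.map (algebraMap ℚ ℚ_[ℓ])

/-- The `ℓ`-adic realizations, for all prime numbers `ℓ`, of motives of rank `N i` and weight `w i` over
the number field `K`, with alternating polarization `J i`, good reduction outside of the finite set `S` of
places and Frobenius polynomials `P i v`; `κ ℓ` is the inverse of the cyclotomic character. -/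
structure IsSystem {K : Type} [Field K] [NumberField K] {ι : Type} {N w : ι → ℕ}
    (S : Set (HeightOneSpectrum (𝓞 K))) (P : ι → HeightOneSpectrum (𝓞 K) → ℚ[X])
    (J : ∀ i, Matrix (Fin (N i)) (Fin (N i)) ℚ)
    (κ : ∀ (ℓ : ℕ) [Fact ℓ.Prime], AbsoluteGaloisGroup K →* ℚ_[ℓ])
    (ρ : ∀ (i : ι) (ℓ : ℕ) [Fact ℓ.Prime],
      AbsoluteGaloisGroup K →* Matrix (Fin (N i)) (Fin (N i)) ℚ_[ℓ]) : Prop where
  finite : S.Finite
  alternating : ∀ i, (J i)ᵀ = -J i
  nondegenerate : ∀ i, (J i).det ≠ 0
  continuous_char : ∀ (ℓ : ℕ) [Fact ℓ.Prime], Continuous (κ ℓ)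
  char_frobenius : ∀ (ℓ : ℕ) [Fact ℓ.Prime], ∀ v ∉ S, (ℓ : 𝓞 K) ∉ v.asIdeal →
    ∀ σ : AbsoluteGaloisGroup K, IsFrobenius v σ → κ ℓ σ⁻¹ = (Ideal.absNorm v.asIdeal : ℚ_[ℓ])
  continuous : ∀ (i : ι) (ℓ : ℕ) [Fact ℓ.Prime], Continuous (ρ i ℓ)
  similitude : ∀ (i : ι) (ℓ : ℕ) [Fact ℓ.Prime] (g : AbsoluteGaloisGroup K),
    (ρ i ℓ g)ᵀ * adic ℓ (J i) * ρ i ℓ g = κ ℓ g ^ w i • adic ℓ (J i)
  frobenius : ∀ (i : ι) (ℓ : ℕ) [Fact ℓ.Prime], ∀ v ∉ S, (ℓ : 𝓞 K) ∉ v.asIdeal →
    ∀ σ : AbsoluteGaloisGroup K, IsFrobenius v σ →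
      (ρ i ℓ σ⁻¹).charpoly = (P i v).map (algebraMap ℚ ℚ_[ℓ])

/-- The image of Galois modulo two is large: the lattices `ℤ₂ ^ N i` are stable, the forms are integral,
`N i ≥ 6`, the `N i + 1` integral vectors `e i a` have odd products `J i (e i a, e i b)` for
`a ≠ b`, and each even permutation of the vectors `e i a` modulo two is the action of an element of the
Galois group which acts trivially on the other lattices modulo two. -/
structure LargeModTwo {K : Type} [Field K] {ι : Type} {N : ι → ℕ}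
    (J : ∀ i, Matrix (Fin (N i)) (Fin (N i)) ℚ)
    (ρ : ∀ i, AbsoluteGaloisGroup K →* Matrix (Fin (N i)) (Fin (N i)) ℚ_[2])
    (e : ∀ i, Fin (N i + 1) → Fin (N i) → ℚ_[2]) : Prop where
  rank : ∀ i, 6 ≤ N i
  integral : ∀ i g a b, ‖ρ i g a b‖ ≤ 1
  integral_form : ∀ i a b, ‖adic 2 (J i) a b‖ ≤ 1
  integral_vectors : ∀ i a b, ‖e i a b‖ ≤ 1
  products : ∀ i a b, a ≠ b → ‖e i a ⬝ᵥ adic 2 (J i) *ᵥ e i b‖ = 1
  permutations : ∀ i (π : Equiv.Perm (Fin (N i + 1))), Equiv.Perm.sign π = 1 →
    ∃ g : AbsoluteGaloisGroup K, (∀ a b, ‖(ρ i g *ᵥ e i a - e i (π a)) b‖ < 1) ∧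
      ∀ j, j ≠ i → ∀ a b, ‖(ρ j g - 1) a b‖ < 1

/-- the value of the multilinear form with the coefficients `T` -/
def value {F : Type} [Field F] {m : ℕ} {n : Fin m → ℕ} (T : (∀ t, Fin (n t)) → F)
    (v : ∀ t, Fin (n t) → F) : F :=
  ∑ r, T r * ∏ t, v t (r t)

/-- the value of the multilinear map with the coefficients `T` and with values in `F ^ d` -/
def vectorValue {F : Type} [Field F] {m d : ℕ} {n : Fin m → ℕ} (T : (∀ t, Fin (n t)) → Fin d → F)
    (v : ∀ t, Fin (n t) → F) : Fin d → F :=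
  ∑ r, (∏ t, v t (r t)) • T r

/-- The representation `τ` on the values is continuous, and a derived subgroup of an open subgroup acts
trivially, or the rank of `τ` is small. -/
def IsAdmissible {K : Type} [Field K] {ι : Type} (N : ι → ℕ) {ℓ : ℕ} [Fact ℓ.Prime] {d : ℕ}
    (τ : AbsoluteGaloisGroup K →* Matrix (Fin d) (Fin d) ℚ_[ℓ]) : Prop :=
  Continuous τ ∧
    ((∃ (U : Subgroup (AbsoluteGaloisGroup K)) (n : ℕ), IsOpen (U : Set (AbsoluteGaloisGroup K)) ∧
      ∀ σ ∈ derivedSeries U n, τ (σ : AbsoluteGaloisGroup K) = 1) ∨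
    ∀ i, d ^ 2 < (N i + 1).choose 2)

/-- the multilinear map on the tensor word `a`, with values in the representation `τ`, is a Tate class:
it is equivariant for an open subgroup of the Galois group -/
def IsTate {K : Type} [Field K] {ℓ : ℕ} [Fact ℓ.Prime] {ι : Type} {N : ι → ℕ} {d : ℕ}
    (ρ : ∀ i, AbsoluteGaloisGroup K →* Matrix (Fin (N i)) (Fin (N i)) ℚ_[ℓ])
    (τ : AbsoluteGaloisGroup K →* Matrix (Fin d) (Fin d) ℚ_[ℓ]) {m : ℕ} (a : Fin m → ι)
    (T : (∀ t, Fin (N (a t))) → Fin d → ℚ_[ℓ]) : Prop :=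
  ∃ H : Subgroup (AbsoluteGaloisGroup K), IsOpen (H : Set (AbsoluteGaloisGroup K)) ∧
    ∀ σ ∈ H, ∀ v : ∀ t, Fin (N (a t)) → ℚ_[ℓ],
      vectorValue T (fun t => ρ (a t) σ *ᵥ v t) = τ σ *ᵥ vectorValue T v

/-- the vector is a Tate class: an open subgroup of the Galois group multiplies it by `κ ^ j` -/
def IsTateVector {K : Type} [Field K] {ℓ : ℕ} [Fact ℓ.Prime] {d : ℕ}
    (τ : AbsoluteGaloisGroup K →* Matrix (Fin d) (Fin d) ℚ_[ℓ])
    (κ : AbsoluteGaloisGroup K →* ℚ_[ℓ]) (j : ℕ) (x : Fin d → ℚ_[ℓ]) : Prop :=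
  ∃ H : Subgroup (AbsoluteGaloisGroup K), IsOpen (H : Set (AbsoluteGaloisGroup K)) ∧
    ∀ σ ∈ H, τ σ *ᵥ x = κ σ ^ j • x

/-- the multilinear form with rational coefficients on the tensor word `a` is killed by the product of
the Lie algebras of the forms -/
def IsRationalInvariant {ι : Type} {N : ι → ℕ} (J : ∀ i, Matrix (Fin (N i)) (Fin (N i)) ℚ) {m : ℕ}
    (a : Fin m → ι) (T : (∀ t, Fin (N (a t))) → ℚ) : Prop :=
  ∀ X : ∀ i, Matrix (Fin (N i)) (Fin (N i)) ℚ, (∀ i, (X i)ᵀ * J i + J i * X i = 0) →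
    ∀ v : ∀ t, Fin (N (a t)) → ℚ, ∑ t, value T (Function.update v t (X (a t) *ᵥ v t)) = 0

/-- **The conclusion at the prime number `ℓ`**: for all admissible values `τ` and all tensor words `a`,
(a) no Tate classes if a letter occurs an odd number of times, (b) in a word of weight `2 j` the Tate
classes are the combinations of rational invariants times Tate classes of the values. -/
def TateAt {K : Type} [Field K] {ι : Type} {N : ι → ℕ} (w : ι → ℕ)
    (J : ∀ i, Matrix (Fin (N i)) (Fin (N i)) ℚ) (ℓ : ℕ) [Fact ℓ.Prime]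
    (κ : AbsoluteGaloisGroup K →* ℚ_[ℓ])
    (ρ : ∀ i, AbsoluteGaloisGroup K →* Matrix (Fin (N i)) (Fin (N i)) ℚ_[ℓ]) : Prop :=
  ∀ (d : ℕ) (τ : AbsoluteGaloisGroup K →* Matrix (Fin d) (Fin d) ℚ_[ℓ]), IsAdmissible N τ →
    ∀ (m : ℕ) (a : Fin m → ι),
      (∀ i, Odd (Nat.card {t // a t = i}) → ∀ T, IsTate ρ τ a T → T = 0) ∧
      ∀ j, ∑ t, w (a t) = 2 * j → ∀ T, IsTate ρ τ a T ↔
        T ∈ Submodule.span ℚ_[ℓ] {T' | ∃ (T₀ : (∀ t, Fin (N (a t))) → ℚ) (x : Fin d → ℚ_[ℓ]),
          IsRationalInvariant J a T₀ ∧ IsTateVector τ κ j x ∧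
          T' = fun r => (T₀ r : ℚ_[ℓ]) • x}

/-- every matrix which commutes with the action of an open subgroup is scalar -/
def HasScalarEnd {K : Type} [Field K] (ℓ : ℕ) [Fact ℓ.Prime] {n : ℕ}
    (ρ : AbsoluteGaloisGroup K →* Matrix (Fin n) (Fin n) ℚ_[ℓ]) : Prop :=
  ∀ (A : Matrix (Fin n) (Fin n) ℚ_[ℓ]) (U : Subgroup (AbsoluteGaloisGroup K)),
    IsOpen (U : Set (AbsoluteGaloisGroup K)) → (∀ σ ∈ U, A * ρ σ = ρ σ * A) →
      ∃ c : ℚ_[ℓ], A = c • (1 : Matrix (Fin n) (Fin n) ℚ_[ℓ])

/-- every stable subspace has a stable complement -/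
def IsSemisimple {K : Type} [Field K] (ℓ : ℕ) [Fact ℓ.Prime] {n : ℕ}
    (ρ : AbsoluteGaloisGroup K →* Matrix (Fin n) (Fin n) ℚ_[ℓ]) : Prop :=
  ∀ W : Submodule ℚ_[ℓ] (Fin n → ℚ_[ℓ]), (∀ g, ∀ x ∈ W, ρ g *ᵥ x ∈ W) →
    ∃ W' : Submodule ℚ_[ℓ] (Fin n → ℚ_[ℓ]), IsCompl W W' ∧ ∀ g, ∀ x ∈ W', ρ g *ᵥ x ∈ W'

/-- a set of prime numbers has natural density zero -/
def DensityZero (A : Set ℕ) : Prop :=
  Tendsto (fun n : ℕ => (Nat.card {ℓ : ℕ // ℓ ≤ n ∧ ℓ ∈ A} : ℝ) / (Nat.primeCounting n : ℝ))
    atTop (𝓝 0)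

/-- the motives are pure, and multiples of the Frobenius eigenvalues by powers of `N v` are
integral -/
def IsPureIntegral {K : Type} [Field K] [NumberField K] {ι : Type} (w : ι → ℕ)
    (S : Set (HeightOneSpectrum (𝓞 K))) (P : ι → HeightOneSpectrum (𝓞 K) → ℚ[X]) : Prop :=
  ∀ i, ∃ m : ℕ, 0 < w i + 2 * m ∧ ∀ v ∉ S,
    (∃ R : ℤ[X], R.map (algebraMap ℤ ℚ) =
      (P i v).scaleRoots ((Ideal.absNorm v.asIdeal : ℚ) ^ m)) ∧
    ∀ z : ℂ, aeval z (P i v) = 0 → ‖z‖ ^ 2 = (Ideal.absNorm v.asIdeal : ℝ) ^ w i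

theorem result {K : Type} [Field K] [NumberField K] {ι : Type} [Fintype ι] {N w : ι → ℕ}
    (S : Set (HeightOneSpectrum (𝓞 K))) (P : ι → HeightOneSpectrum (𝓞 K) → ℚ[X])
    (J : ∀ i, Matrix (Fin (N i)) (Fin (N i)) ℚ)
    (κ : ∀ (ℓ : ℕ) [Fact ℓ.Prime], AbsoluteGaloisGroup K →* ℚ_[ℓ])
    (ρ : ∀ (i : ι) (ℓ : ℕ) [Fact ℓ.Prime],
      AbsoluteGaloisGroup K →* Matrix (Fin (N i)) (Fin (N i)) ℚ_[ℓ])
    (h : IsSystem (w := w) S P J κ ρ)
    -- the hypothesis on the image modulo two
    (e : ∀ i, Fin (N i + 1) → Fin (N i) → ℚ_[2]) (h2 : LargeModTwo J (fun i => ρ i 2) e) :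
    -- (1) at the prime number two
    TateAt w J 2 (κ 2) (fun i => ρ i 2) ∧
    -- (2) at 100 percent of the prime numbers
    DensityZero {ℓ | ∃ _ : Fact ℓ.Prime, ¬ TateAt w J ℓ (κ ℓ) (fun i => ρ i ℓ)} ∧
    -- (3) at every prime number with semisimplicity and scalar endomorphisms
    ∀ (ℓ : ℕ) [Fact ℓ.Prime],
      ((∀ i, IsSemisimple ℓ (ρ i ℓ)) ∨ (Module.finrank ℚ K = 1 ∧ IsPureIntegral w S P)) →
      (∀ i, HasScalarEnd ℓ (ρ i ℓ)) → TateAt w J ℓ (κ ℓ) (fun i => ρ i ℓ) := by
  classical
  have hpos : ∀ i, 0 < N i := fun i => by have := h2.rank i; omega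
  have hdet2 : ∀ i, (adic 2 (J i)).det ≠ 0 := fun i =>
    Pool.Agent.R932.PO.det_map_ne (algebraMap ℚ ℚ_[2]) (h.nondegenerate i)
  have halt2 : ∀ i, (adic 2 (J i))ᵀ = -adic 2 (J i) := fun i =>
    (Pool.Agent.R932.PO.Fits.map (κ := .sym) (algebraMap ℚ ℚ_[2])
      (show Pool.Agent.R932.PO.Fits .sym (J i) from ⟨h.alternating i, hpos i⟩)).1
  have hfull : ∀ X, (∀ i, Pool.Agent.Y142.ZS.SpLie (Pool.Agent.R932.PO.JL J 2 i) (X i)) →
      Pool.Agent.R932.PO.JTan 2 (fun i => ρ i 2) X := fun X hX =>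
    Pool.Agent.N171.TG.jtan_of_large (fun i => ρ i 2) (fun i => adic 2 (J i))
      (fun i => (powMonoidHom (w i)).comp (κ 2))
      (fun i => Pool.Agent.R932.OP.even_of_alt (halt2 i) (hdet2 i)) h2.rank halt2 h2.integral
      h2.integral_form (fun i g => h.similitude i 2 g) e h2.integral_vectors h2.products
      h2.permutations X hX
  obtain ⟨r0, r1, r2, -, r4⟩ := Pool.Agent.N171.TG.mt_all h.finite J h.alternating hpos
    h.nondegenerate κ
    (fun ℓ _ => h.continuous_char ℓ) (fun ℓ _ => h.char_frobenius ℓ) ρ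
    (fun i ℓ _ => h.continuous i ℓ) (fun i ℓ _ => h.similitude i ℓ)
    (fun i ℓ _ => h.frobenius i ℓ) 2 hfull
  have key : ∀ (ℓ : ℕ) [Fact ℓ.Prime],
      Pool.Agent.N171.TG.MTAt ℓ w (Pool.Agent.R932.PO.JL J ℓ) (fun i => ρ i ℓ) (κ ℓ) →
        TateAt w J ℓ (κ ℓ) (fun i => ρ i ℓ) := by
    intro ℓ _ hmt d τ hτ m a
    exact Pool.Agent.N171.TG.So.tate_core h.alternating h.nondegenerate hpos
      (fun i => h.continuous i ℓ) hτ.1 (h.continuous_char ℓ) (fun i => h.similitude i ℓ)
      (fun X hX => Pool.Agent.N171.TG.So.wtan_of_valC h.alternating h.nondegenerate hpos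
        (fun i => h.continuous i ℓ) hτ.1
        (fun Y hY => Pool.Agent.N171.TG.So.jtan_of_mt hmt Y hY) hτ.2 X hX) a
  refine ⟨key 2 r0.1, ?_, ?_⟩
  · refine Pool.Agent.Y142.ZI.DensityZero.mono r1 ?_
    rintro ℓ ⟨hℓ, hn⟩
    exact ⟨hℓ, fun hm => hn (key ℓ hm.1)⟩
  · rintro ℓ _ (hss | ⟨hK, hpi⟩) hsc
    · exact key ℓ (r2 ℓ hss hsc).1
    · refine key ℓ (r2 ℓ (fun i => ?_) hsc).1
      obtain ⟨m, hm, hpi⟩ := hpi i
      exact r4 hK i m hm (fun v hv => (hpi v hv).1) (fun v hv => (hpi v hv).2) ℓ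

end Pool.Agent.Results.MP_021685_ag.SolvableOrSmallFactor
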